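import Mathlib

set_option autoImplicit false

/-!
# A recurrence set of rank two that is not semi-linear
-/

namespace Pool.Agent.Results.MP_2fa0cb_nt.RankTwoFails

open Polynomial OnePoint

/-- The self-map of `P¹(ℂ) = ℂ ∪ {∞}` defined by a rational function `h = num / denom`. -/
noncomputable def value (h : RatFunc ℂ) (x : OnePoint ℂ) : OnePoint ℂ :=
  x.elim
    (if h.denom.natDegree < h.num.natDegree then ∞
      else ((h.num.coeff h.denom.natDegree / h.denom.leadingCoeff : ℂ) : OnePoint ℂ))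
    (fun z => if h.denom.eval z = 0 then ∞
      else ((h.num.eval z / h.denom.eval z : ℂ) : OnePoint ℂ))

/-- The degree of a rational function. -/
noncomputable def degree (h : RatFunc ℂ) : ℕ := max h.num.natDegree h.denom.natDegree

/-- The set of pairs `(m, n)` such that `c x = f^m x = g^n x` for some `x` in `P¹(ℂ)`. -/
def S2 (f g c : RatFunc ℂ) : Set (ℕ × ℕ) :=
  {p | ∃ x : OnePoint ℂ, value c x = (value f)^[p.1] x ∧ (value f)^[p.1] x = (value g)^[p.2] x}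

/-! ### Semi-linear subsets of `ℕ × ℕ` -/

/-- a linear set with an infinite vertical slice has a vertical period -/
lemma linear_period {L : Set (ℕ × ℕ)} (hL : IsLinearSet L) :
    ∃ b : ℕ, 0 < b ∧ ∀ m : ℕ, {n | (m, n) ∈ L}.Infinite →
      ∀ n k : ℕ, (m, n) ∈ L → (m, n + k * b) ∈ L := by
  obtain ⟨a, t, ht, rfl⟩ := hL
  by_cases h : ∃ b : ℕ, 0 < b ∧ (0, b) ∈ t
  · obtain ⟨b, hb, hbt⟩ := h
    refine ⟨b, hb, fun m _ n k hmn => ?_⟩
    obtain ⟨y, hy, hyn⟩ := Set.mem_vadd_set.mp hmn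
    refine Set.mem_vadd_set.mpr ⟨y + k • (0, b), ?_, ?_⟩
    · exact AddSubmonoid.add_mem _ hy
        (AddSubmonoid.nsmul_mem _ (AddSubmonoid.subset_closure hbt) k)
    · rw [vadd_eq_add] at hyn ⊢
      rw [← add_assoc, hyn]
      ext <;> simp
  · refine ⟨1, one_pos, fun m hinf => ?_⟩
    exfalso
    apply hinf
    obtain ⟨M, hM⟩ : ∃ M : ℕ, ∀ p ∈ t, p.2 ≤ M := by
      obtain ⟨M, hM⟩ := (ht.image Prod.snd).bddAbove
      exact ⟨M, fun p hp => hM (Set.mem_image_of_mem _ hp)⟩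
    have hcl : ∀ y ∈ AddSubmonoid.closure t, y.2 ≤ M * y.1 := by
      intro y hy
      induction hy using AddSubmonoid.closure_induction with
      | mem p hp =>
        rcases Nat.eq_zero_or_pos p.1 with h0 | h0
        · rcases Nat.eq_zero_or_pos p.2 with h1 | h1
          · rw [h1]; exact Nat.zero_le _
          · exfalso
            apply h
            refine ⟨p.2, h1, ?_⟩
            have : ((0 : ℕ), p.2) = p := by rw [← h0]
            rw [this]; exact hp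
        · calc p.2 ≤ M := hM p hp
            _ = M * 1 := (mul_one M).symm
            _ ≤ M * p.1 := Nat.mul_le_mul_left M h0
      | zero => simp
      | add x y _ _ hx hy =>
        simp only [Prod.snd_add, Prod.fst_add, mul_add]
        exact add_le_add hx hy
    apply (Set.finite_Iic (a.2 + M * m)).subset
    intro n hn
    obtain ⟨y, hy, hyn⟩ := Set.mem_vadd_set.mp (show (m, n) ∈ _ from hn)
    rw [vadd_eq_add] at hyn
    have h1 : a.1 + y.1 = m := congrArg Prod.fst hyn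
    have h2 : a.2 + y.2 = n := congrArg Prod.snd hyn
    have h3 := hcl y hy
    have h4 : M * y.1 ≤ M * m := Nat.mul_le_mul_left M (by omega)
    simp only [Set.mem_Iic]
    omega

/-- the vertical slices of a semi-linear set have a common eventual period -/
lemma semilinear_period {S : Set (ℕ × ℕ)} (hS : IsSemilinearSet S) :
    ∃ B : ℕ, 0 < B ∧ ∀ m : ℕ, {n | (m, n) ∈ S}.Infinite →
      ∃ n : ℕ, (m, n) ∈ S ∧ (m, n + B) ∈ S := by
  classical
  obtain ⟨F, hF, rfl⟩ := isSemilinearSet_iff.mp hS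
  choose! b hb0 hb using fun (L : Set (ℕ × ℕ)) (hL : IsLinearSet L) => linear_period hL
  refine ⟨∏ L ∈ F, b L, Finset.prod_pos fun L hL => hb0 L (hF L hL), fun m hm => ?_⟩
  have hex : ∃ L ∈ F, {n | (m, n) ∈ L}.Infinite := by
    by_contra hcon
    push Not at hcon
    apply hm
    have : {n | (m, n) ∈ ⋃₀ (F : Set (Set (ℕ × ℕ)))} ⊆ ⋃ L ∈ F, {n | (m, n) ∈ L} := by
      intro n hn
      obtain ⟨L, hL, hn'⟩ := Set.mem_sUnion.mp (show (m, n) ∈ _ from hn)
      exact Set.mem_biUnion (Finset.mem_coe.mp hL) hn'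
    refine (Set.Finite.biUnion F.finite_toSet fun L hL => ?_).subset this
    simpa using hcon L hL
  obtain ⟨L, hL, hinf⟩ := hex
  obtain ⟨n, hn⟩ := hinf.nonempty
  obtain ⟨k, hk⟩ := Finset.dvd_prod_of_mem b hL
  refine ⟨n, Set.mem_sUnion.mpr ⟨L, hL, hn⟩, Set.mem_sUnion.mpr ⟨L, hL, ?_⟩⟩
  rw [hk, mul_comm]
  exact hb L (hF L hL) m hinf n k hn

/-! ### Powers of `2` and `3` modulo powers of `5` -/

lemma val_four (u : ℕ) : padicValNat 5 (4 ^ 5 ^ u + 1) = u + 1 := by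
  have : Fact (Nat.Prime 5) := ⟨by norm_num⟩
  have h := padicValNat.pow_add_pow (p := 5) (x := 4) (y := 1) (by decide) (by norm_num)
    (by norm_num) (n := 5 ^ u) (Odd.pow (by decide))
  rw [one_pow] at h
  rw [h, padicValNat.prime_pow]
  have h5 : padicValNat 5 (4 + 1) = 1 := by
    have := padicValNat.self (p := 5) (by norm_num)
    simpa using this
  rw [h5, add_comm]

lemma val_three (k : ℕ) : padicValNat 5 (81 ^ 5 ^ k - 1) = k + 1 := by
  have : Fact (Nat.Prime 5) := ⟨by norm_num⟩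
  have h := padicValNat.pow_sub_pow (p := 5) (x := 81) (y := 1) (by decide) (by norm_num)
    (by norm_num) (by norm_num) (n := 5 ^ k) (by positivity)
  rw [one_pow] at h
  rw [h, padicValNat.prime_pow]
  have h5 : padicValNat 5 (81 - 1) = 1 := by
    have h1 : padicValNat 5 (5 ^ 1 * 16) = 1 + padicValNat 5 16 := by
      rw [padicValNat.mul (by norm_num) (by norm_num), padicValNat.prime_pow]
    have h2 : padicValNat 5 16 = 0 := padicValNat.eq_zero_of_not_dvd (by norm_num)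
    rw [h2] at h1
    simpa using h1
  rw [h5, add_comm]

/-- a power of `3` congruent to `1` modulo `5 ^ (k + 1)` and not modulo `5 ^ (k + 2)` -/
lemma three_pow (k : ℕ) : ∃ r : ℕ, 3 ^ (4 * 5 ^ k) = 1 + 5 ^ (k + 1) * r ∧ ¬ 5 ∣ r := by
  have : Fact (Nat.Prime 5) := ⟨by norm_num⟩
  have h1 : (3 : ℕ) ^ (4 * 5 ^ k) = 81 ^ 5 ^ k := by rw [pow_mul]; norm_num
  have h0 : 1 < (81 : ℕ) ^ 5 ^ k := Nat.one_lt_pow (by positivity) (by norm_num)
  have h2 : (5 : ℕ) ^ (k + 1) ∣ 81 ^ 5 ^ k - 1 := by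
    rw [padicValNat_dvd_iff_le (by omega), val_three]
  obtain ⟨r, hr⟩ := h2
  refine ⟨r, by rw [h1, ← hr]; omega, ?_⟩
  rintro ⟨s, rfl⟩
  have h3 : (5 : ℕ) ^ (k + 2) ∣ 81 ^ 5 ^ k - 1 := ⟨s, by rw [hr]; ring⟩
  rw [padicValNat_dvd_iff_le (by omega), val_three] at h3
  omega

/-- `2` is a power of `3` modulo each power of `5` -/
lemma two_eq (k : ℕ) : ∃ a : ℕ, (3 : ℤ) ^ a ≡ 2 [ZMOD 5 ^ (k + 1)] := by
  induction k with
  | zero => exact ⟨3, by decide⟩
  | succ k ih =>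
    obtain ⟨a, ha⟩ := ih
    obtain ⟨s, hs⟩ := (Int.modEq_iff_dvd.mp ha)
    obtain ⟨r, hr, hr5⟩ := three_pow k
    -- choose `t` with `2 t r ≡ s` modulo `5`
    have hcop : IsCoprime (2 * (r : ℤ)) 5 := by
      have h1 : IsCoprime (2 : ℤ) 5 := by norm_num
      have h2 : IsCoprime (r : ℤ) 5 := by
        rw [Int.isCoprime_iff_gcd_eq_one]
        have h3 : Nat.Coprime r 5 := ((Nat.Prime.coprime_iff_not_dvd (by norm_num)).mpr hr5).symm
        simpa [Int.gcd] using h3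
      exact h1.mul_left h2
    obtain ⟨x, y, hxy⟩ := hcop
    obtain ⟨t, ht⟩ : ∃ t : ℕ, (t : ℤ) ≡ s * x [ZMOD 5] := by
      refine ⟨((s * x) % 5).toNat, ?_⟩
      rw [Int.toNat_of_nonneg (Int.emod_nonneg _ (by norm_num))]
      exact Int.mod_modEq _ _
    refine ⟨a + 4 * 5 ^ k * t, ?_⟩
    have h1 : (3 : ℤ) ^ (a + 4 * 5 ^ k * t) = 3 ^ a * (1 + 5 ^ (k + 1) * r) ^ t := by
      rw [pow_add, pow_mul]
      have := congrArg (fun z : ℕ => (z : ℤ)) hr
      push_cast at this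
      rw [this]
    have h2 : ((1 : ℤ) + 5 ^ (k + 1) * r) ^ t ≡ 1 + 5 ^ (k + 1) * r * t [ZMOD 5 ^ (k + 2)] := by
      clear ht h1
      induction t with
      | zero => simp
      | succ t iht =>
        have e : ((1 : ℤ) + 5 ^ (k + 1) * r) ^ (t + 1) =
            (1 + 5 ^ (k + 1) * r) ^ t * (1 + 5 ^ (k + 1) * r) := pow_succ _ _
        rw [e]
        refine (iht.mul_right _).trans ?_
        rw [Int.modEq_iff_dvd]
        refine ⟨-(5 ^ k * r * r * t), ?_⟩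
        push_cast
        ring
    have hs' : (3 : ℤ) ^ a = 2 - 5 ^ (k + 1) * s := by linarith
    rw [h1]
    refine (h2.mul_left _).trans ?_
    rw [hs', Int.modEq_iff_dvd]
    obtain ⟨w, hw⟩ := Int.modEq_iff_dvd.mp ht
    -- `s x - t = 5 w` and `x (2 r) + y 5 = 1`
    refine ⟨s * y + 2 * r * w + 5 ^ k * s * r * t, ?_⟩
    have e1 : (t : ℤ) = s * x - 5 * w := by linarith
    rw [e1]
    have e2 : (2 - 5 ^ (k + 1) * s) * (1 + 5 ^ (k + 1) * (r : ℤ) * (s * x - 5 * w)) =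
        2 + 5 ^ (k + 1) * (s * (x * (2 * r)) - s - 10 * r * w) -
          5 ^ (k + 2) * (5 ^ k * s * r * (s * x - 5 * w)) := by ring
    rw [e2]
    have e3 : x * (2 * (r : ℤ)) = 1 - y * 5 := by linarith
    rw [e3]
    ring

/-- each power of `2` is, modulo each power of `5`, a power of `3` with arbitrarily large exponent -/
lemma exists_pow (k m N : ℕ) : ∃ n : ℕ, N ≤ n ∧ (3 : ℤ) ^ n ≡ 2 ^ m [ZMOD 5 ^ (k + 1)] := by
  obtain ⟨a, ha⟩ := two_eq k
  obtain ⟨r, hr, -⟩ := three_pow k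
  refine ⟨a * m + 4 * 5 ^ k * N, ?_, ?_⟩
  · have : 1 ≤ 4 * 5 ^ k := by have := Nat.one_le_pow k 5 (by norm_num); omega
    nlinarith
  · have e : (3 : ℤ) ^ (a * m + 4 * 5 ^ k * N) = (3 ^ a) ^ m * (3 ^ (4 * 5 ^ k)) ^ N := by
      rw [pow_add, pow_mul, pow_mul]
    rw [e]
    have h1 : (3 : ℤ) ^ (4 * 5 ^ k) ≡ 1 [ZMOD 5 ^ (k + 1)] := by
      have := congrArg (fun z : ℕ => (z : ℤ)) hr
      push_cast at this
      rw [this, Int.modEq_iff_dvd]
      exact ⟨-r, by ring⟩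
    have h2 := (ha.pow m).mul (h1.pow N)
    rwa [one_pow, mul_one] at h2

/-! ### The example -/

/-- `z ^ k` as a rational function -/
noncomputable def pw (k : ℕ) : RatFunc ℂ := RatFunc.X ^ k

/-- `ζ / z` as a rational function -/
noncomputable def inv (ζ : ℂ) : RatFunc ℂ := RatFunc.C ζ / RatFunc.X

lemma pw_eq (k : ℕ) : pw k = algebraMap ℂ[X] (RatFunc ℂ) (X ^ k) := by
  rw [pw, map_pow, RatFunc.algebraMap_X]

lemma num_pw (k : ℕ) : (pw k).num = X ^ k := by rw [pw_eq]; exact RatFunc.num_algebraMap _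

lemma denom_pw (k : ℕ) : (pw k).denom = 1 := by rw [pw_eq]; exact RatFunc.denom_algebraMap _

lemma degree_pw (k : ℕ) : degree (pw k) = k := by
  rw [degree, num_pw, denom_pw, natDegree_X_pow, natDegree_one]
  exact max_eq_left (Nat.zero_le k)

lemma value_pw_infty {k : ℕ} (hk : 0 < k) : value (pw k) ∞ = ∞ := by
  unfold value
  rw [OnePoint.elim_infty, if_pos]
  rw [num_pw, denom_pw, natDegree_X_pow, natDegree_one]
  exact hk

lemma value_pw_coe (k : ℕ) (z : ℂ) :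
    value (pw k) (z : OnePoint ℂ) = ((z ^ k : ℂ) : OnePoint ℂ) := by
  unfold value
  rw [OnePoint.elim_some, denom_pw, num_pw, eval_one, if_neg one_ne_zero, eval_pow, eval_X, div_one]

lemma iterate_pw_coe (k m : ℕ) (z : ℂ) :
    (value (pw k))^[m] (z : OnePoint ℂ) = ((z ^ k ^ m : ℂ) : OnePoint ℂ) := by
  induction m with
  | zero => simp
  | succ m ih =>
    rw [Function.iterate_succ_apply', ih, value_pw_coe, ← pow_mul, ← pow_succ]

lemma iterate_pw_infty {k : ℕ} (hk : 0 < k) (m : ℕ) : (value (pw k))^[m] ∞ = ∞ := by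
  induction m with
  | zero => rfl
  | succ m ih => rw [Function.iterate_succ_apply', ih, value_pw_infty hk]

lemma inv_eq (ζ : ℂ) :
    inv ζ = algebraMap ℂ[X] (RatFunc ℂ) (C ζ) / algebraMap ℂ[X] (RatFunc ℂ) X := by
  rw [inv, RatFunc.algebraMap_C, RatFunc.algebraMap_X]

lemma gcd_C_X {ζ : ℂ} (hζ : ζ ≠ 0) : gcd (C ζ) (X : ℂ[X]) = 1 := by
  rw [← normalize_gcd, normalize_eq_one]
  exact isUnit_of_dvd_unit (gcd_dvd_left _ _) (isUnit_C.mpr (isUnit_iff_ne_zero.mpr hζ))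

lemma num_inv {ζ : ℂ} (hζ : ζ ≠ 0) : (inv ζ).num = C ζ := by
  rw [inv_eq, RatFunc.num_div, gcd_C_X hζ, EuclideanDomain.div_one, EuclideanDomain.div_one,
    leadingCoeff_X, inv_one, map_one, one_mul]

lemma denom_inv {ζ : ℂ} (hζ : ζ ≠ 0) : (inv ζ).denom = X := by
  rw [inv_eq, RatFunc.denom_div _ X_ne_zero, gcd_C_X hζ, EuclideanDomain.div_one,
    leadingCoeff_X, inv_one, map_one, one_mul]

lemma degree_inv {ζ : ℂ} (hζ : ζ ≠ 0) : degree (inv ζ) = 1 := by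
  rw [degree, num_inv hζ, denom_inv hζ, natDegree_C, natDegree_X]
  rfl

lemma value_inv_infty {ζ : ℂ} (hζ : ζ ≠ 0) : value (inv ζ) ∞ = ((0 : ℂ) : OnePoint ℂ) := by
  unfold value
  rw [OnePoint.elim_infty, num_inv hζ, denom_inv hζ, if_neg (by simp)]
  congr 1
  rw [natDegree_X, coeff_C_succ, zero_div]

lemma value_inv_zero {ζ : ℂ} (hζ : ζ ≠ 0) : value (inv ζ) ((0 : ℂ) : OnePoint ℂ) = ∞ := by
  unfold value
  rw [OnePoint.elim_some, num_inv hζ, denom_inv hζ, if_pos (by simp)]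

lemma value_inv_coe {ζ : ℂ} (hζ : ζ ≠ 0) {z : ℂ} (hz : z ≠ 0) :
    value (inv ζ) (z : OnePoint ℂ) = ((ζ / z : ℂ) : OnePoint ℂ) := by
  unfold value
  rw [OnePoint.elim_some, num_inv hζ, denom_inv hζ, if_neg (by simpa using hz), eval_C, eval_X]

/-- the recurrence set in terms of complex numbers -/
lemma mem_S2 {ζ : ℂ} (hζ : ζ ≠ 0) (m n : ℕ) :
    (m, n) ∈ S2 (pw 2) (pw 3) (inv ζ) ↔ ∃ z : ℂ, z ^ (2 ^ m + 1) = ζ ∧ z ^ (3 ^ n + 1) = ζ := by
  constructor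
  · rintro ⟨x, h1, h2⟩
    simp only at h1 h2
    induction x using OnePoint.rec with
    | infty =>
      rw [value_inv_infty hζ, iterate_pw_infty (by norm_num)] at h1
      exact absurd h1 (OnePoint.coe_ne_infty _)
    | coe z =>
      rcases eq_or_ne z 0 with rfl | hz
      · rw [value_inv_zero hζ, iterate_pw_coe] at h1
        exact absurd h1 (OnePoint.infty_ne_coe _)
      · rw [value_inv_coe hζ hz, iterate_pw_coe, OnePoint.coe_eq_coe] at h1
        rw [iterate_pw_coe, iterate_pw_coe, OnePoint.coe_eq_coe] at h2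
        refine ⟨z, ?_, ?_⟩
        · rw [pow_succ, ← h1]; field_simp
        · rw [pow_succ, ← h2, ← h1]; field_simp
  · rintro ⟨z, h1, h2⟩
    have hz : z ≠ 0 := by
      rintro rfl
      rw [zero_pow (Nat.succ_ne_zero _)] at h1
      exact hζ h1.symm
    have e1 : z ^ 2 ^ m = ζ / z := by rw [eq_div_iff hz, ← pow_succ, h1]
    have e2 : z ^ 3 ^ n = ζ / z := by rw [eq_div_iff hz, ← pow_succ, h2]
    refine ⟨(z : OnePoint ℂ), ?_, ?_⟩
    · simp only
      rw [value_inv_coe hζ hz, iterate_pw_coe, e1]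
    · simp only
      rw [iterate_pw_coe, iterate_pw_coe, e1, e2]

/-- equality of `5`-adic valuations -/
lemma dvd_of_mem {ζ : ℂ} (hζ : IsPrimitiveRoot ζ 5) {A B k : ℕ} {z : ℂ}
    (h1 : z ^ A = ζ) (h2 : z ^ B = ζ) (hB : B ≠ 0) (hA : 5 ^ k ∣ A) : 5 ^ k ∣ B := by
  by_contra hcon
  -- write `B = 5 ^ j * B'` with `j < k` and `5 ∤ B'`
  obtain ⟨j, B', hB', rfl⟩ := Nat.exists_eq_pow_mul_and_not_dvd hB 5 (by norm_num)
  have hjk : j < k := by
    by_contra hle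
    exact hcon ((pow_dvd_pow 5 (not_lt.mp hle)).mul_right _)
  -- then `ζ ^ B' = z ^ (A B')` is a power of `z ^ (5 B)`
  obtain ⟨A', rfl⟩ := (pow_dvd_pow 5 hjk).trans hA
  have h3 : ζ ^ B' = 1 := by
    calc ζ ^ B' = z ^ (5 ^ (j + 1) * A' * B') := by rw [← h1, ← pow_mul]
      _ = (z ^ (5 ^ j * B')) ^ (5 * A') := by rw [← pow_mul]; congr 1; ring
      _ = 1 := by rw [h2, pow_mul, hζ.pow_eq_one, one_pow]
  exact hB' ((hζ.pow_eq_one_iff_dvd _).mp h3)

/-- construction of a point -/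
lemma exists_root {ζ : ℂ} (hζ : IsPrimitiveRoot ζ 5) {A B k : ℕ} (hA : 5 ^ k ∣ A)
    (hA' : ¬ 5 ^ (k + 1) ∣ A) (hAB : A ≡ B [MOD 5 ^ (k + 1)]) :
    ∃ z : ℂ, z ^ A = ζ ∧ z ^ B = ζ := by
  have h5 : (5 : ℕ) ^ (k + 1) ≠ 0 := by positivity
  set ω := Complex.exp (2 * Real.pi * Complex.I / ((5 ^ (k + 1) : ℕ) : ℂ)) with hω
  have hprim : IsPrimitiveRoot ω (5 ^ (k + 1)) := Complex.isPrimitiveRoot_exp _ h5
  obtain ⟨A', rfl⟩ := hA
  have hA5 : ¬ 5 ∣ A' := by
    rintro ⟨s, rfl⟩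
    exact hA' ⟨s, by ring⟩
  have h1 : IsPrimitiveRoot (ω ^ 5 ^ k) 5 := hprim.pow (by positivity) (by ring)
  have h2 : IsPrimitiveRoot (ω ^ (5 ^ k * A')) 5 := by
    rw [pow_mul]
    exact h1.pow_of_coprime A' ((Nat.Prime.coprime_iff_not_dvd (by norm_num)).mpr hA5).symm
  obtain ⟨i, -, hi⟩ := h2.eq_pow_of_pow_eq_one hζ.pow_eq_one
  have e1 : (ω ^ i) ^ (5 ^ k * A') = ζ := by rw [← hi, ← pow_mul, ← pow_mul, mul_comm]
  refine ⟨ω ^ i, e1, ?_⟩
  rw [← e1, ← pow_mul, ← pow_mul]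
  have h3 : (ω ^ i) ^ 5 ^ (k + 1) = 1 := by
    rw [← pow_mul, mul_comm, pow_mul, hprim.pow_eq_one, one_pow]
  rw [pow_mul, pow_mul]
  exact pow_eq_pow_of_modEq hAB.symm h3

/-- The answer to Q2 is negative: for `f = z²`, `g = z³` and `c = ζ / z`, where `ζ` is a primitive
fifth root of unity, the recurrence set of rank two is not semi-linear. -/
theorem result : ∀ ζ : ℂ, IsPrimitiveRoot ζ 5 →
    degree (pw 2) = 2 ∧ degree (pw 3) = 3 ∧ degree (inv ζ) = 1 ∧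
      ¬ IsSemilinearSet (S2 (pw 2) (pw 3) (inv ζ)) := by
  intro ζ hζ
  have hζ0 : ζ ≠ 0 := hζ.ne_zero (by norm_num)
  refine ⟨degree_pw 2, degree_pw 3, degree_inv hζ0, fun hsemi => ?_⟩
  have : Fact (Nat.Prime 5) := ⟨by norm_num⟩
  obtain ⟨B, hB, hper⟩ := semilinear_period hsemi
  -- the slice at `m = 2 * 5 ^ u`
  set u : ℕ := 3 ^ B with hu
  have hm : (2 : ℕ) ^ (2 * 5 ^ u) = 4 ^ 5 ^ u := by rw [pow_mul]; norm_num
  have hd1 : 5 ^ (u + 1) ∣ 2 ^ (2 * 5 ^ u) + 1 := by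
    rw [hm, padicValNat_dvd_iff_le (by positivity), val_four]
  have hd2 : ¬ 5 ^ (u + 1 + 1) ∣ 2 ^ (2 * 5 ^ u) + 1 := by
    rw [hm, padicValNat_dvd_iff_le (by positivity), val_four]
    omega
  have hinf : {n | (2 * 5 ^ u, n) ∈ S2 (pw 2) (pw 3) (inv ζ)}.Infinite := by
    rw [Set.infinite_iff_exists_gt]
    intro N
    obtain ⟨n, hn, hcong⟩ := exists_pow (u + 1) (2 * 5 ^ u) (N + 1)
    refine ⟨n, ?_, by omega⟩
    show (2 * 5 ^ u, n) ∈ S2 (pw 2) (pw 3) (inv ζ)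
    rw [mem_S2 hζ0]
    refine exists_root hζ hd1 hd2 ?_
    have h1 : ((2 : ℕ) ^ (2 * 5 ^ u)) ≡ 3 ^ n [MOD 5 ^ (u + 1 + 1)] := by
      rw [← Int.natCast_modEq_iff]
      push_cast
      exact hcong.symm
    exact h1.add_right 1
  obtain ⟨n, h1, h2⟩ := hper _ hinf
  rw [mem_S2 hζ0] at h1 h2
  obtain ⟨z, hz1, hz2⟩ := h1
  obtain ⟨w, hw1, hw2⟩ := h2
  have e1 := dvd_of_mem hζ hz1 hz2 (Nat.succ_ne_zero _) hd1
  have e2 := dvd_of_mem hζ hw1 hw2 (Nat.succ_ne_zero _) hd1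
  have e3 : 5 ^ (u + 1) ∣ 3 ^ n * (3 ^ B - 1) := by
    have h3 := Nat.dvd_sub e2 e1
    have h4 : 3 ^ (n + B) + 1 - (3 ^ n + 1) = 3 ^ n * (3 ^ B - 1) := by
      rw [pow_add, Nat.mul_sub, mul_one]
      omega
    rwa [h4] at h3
  have e4 : 5 ^ (u + 1) ∣ 3 ^ B - 1 := by
    refine Nat.Coprime.dvd_of_dvd_mul_left ?_ e3
    exact Nat.Coprime.pow _ _ (by norm_num)
  have h3B : 1 < 3 ^ B := Nat.one_lt_pow hB.ne' (by norm_num)
  have e5 := Nat.le_of_dvd (by omega) e4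
  have e6 : u + 1 < 5 ^ (u + 1) := Nat.lt_pow_self (by norm_num)
  omega

end Pool.Agent.Results.MP_2fa0cb_nt.RankTwoFails
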